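import Mathlib
import Pool.Agent.TH932.S2.G.Stay2
import Pool.Agent.TH932.S2.G.Col

set_option autoImplicit false

/-!
# Counterexamples to the coefficient stopping time conjecture
-/

namespace Pool.Agent.Results.MP_a11cf9_nt.CounterexamplesSuperlinear

open Filter Topology Pool.Agent.TH932.Words Pool.Agent.TH932.S2

/-- the `3x+1` map -/
def T (n : ℕ) : ℕ := if n % 2 = 0 then n / 2 else (3 * n + 1) / 2

/-- the number `a_k(n)` of odd terms among the first `k` ones -/
def odds (n k : ℕ) : ℕ := ((Finset.range k).filter fun i => T^[i] n % 2 = 1).card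

/-- the coefficient stopping time of `n` is `k` -/
def IsKappa (n k : ℕ) : Prop := 1 ≤ k ∧ 3 ^ odds n k < 2 ^ k ∧
  ∀ j, 1 ≤ j → j < k → 2 ^ j ≤ 3 ^ odds n j

/-- the stopping time of `n` is `k` -/
def IsSigma (n k : ℕ) : Prop := 1 ≤ k ∧ T^[k] n < n ∧ ∀ j, 1 ≤ j → j < k → n ≤ T^[j] n

/-- the integer `n` is a counterexample to the conjecture: its coefficient stopping time and its
stopping time are different (finite or infinite) -/
def Counterexample (n : ℕ) : Prop := 2 ≤ n ∧ ¬ ∀ k, IsKappa n k ↔ IsSigma n k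

/-- the number of different blocks of `N` consecutive parities among the first `h` terms of the
trajectory of `n` -/
noncomputable def blocksUpTo (n h N : ℕ) : ℕ :=
  ((fun i : ℕ => fun j : Fin N => T^[i + j] n % 2) '' {i | i + N ≤ h}).ncard

lemma odds_succ (n k : ℕ) : odds n (k + 1) = odds n k + (if T^[k] n % 2 = 1 then 1 else 0) := by
  unfold odds
  rw [Finset.range_add_one, Finset.filter_insert]
  split_ifs with h
  · rw [Finset.card_insert_of_notMem (by simp)]
  · rw [add_zero]

/-- the affine formula -/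
lemma affine (n k : ℕ) : ∃ c : ℕ, 2 ^ k * T^[k] n = 3 ^ odds n k * n + c ∧
    ((∀ j, 1 ≤ j → j < k → 2 ^ j ≤ 3 ^ odds n j) → c ≤ k * 3 ^ odds n k) := by
  induction k with
  | zero => exact ⟨0, by simp [odds], by simp⟩
  | succ k ih =>
    obtain ⟨c, h1, h2⟩ := ih
    rw [Function.iterate_succ_apply', odds_succ]
    rcases Nat.mod_two_eq_zero_or_one (T^[k] n) with h | h
    · refine ⟨c, ?_, fun hj => ?_⟩
      · rw [T, if_pos h, if_neg (by omega), add_zero, ← h1, pow_succ, mul_assoc,
          Nat.mul_div_cancel' (Nat.dvd_of_mod_eq_zero h)]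
      · rw [if_neg (by omega), add_zero]
        refine (h2 fun j a b => hj j a (by omega)).trans (Nat.mul_le_mul_right _ (by omega))
    · refine ⟨3 * c + 2 ^ k, ?_, fun hj => ?_⟩
      · rw [T, if_neg (by omega), if_pos h, pow_succ 2 k, mul_assoc,
          Nat.mul_div_cancel' (by omega : 2 ∣ 3 * T^[k] n + 1), pow_succ 3]
        have e : 2 ^ k * (3 * T^[k] n + 1) = 3 * (2 ^ k * T^[k] n) + 2 ^ k := by ring
        rw [e, h1]
        ring
      · rw [if_pos h]
        have h3 := h2 fun j a b => hj j a (by omega)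
        have h4 : 2 ^ k ≤ 3 ^ odds n k := by
          rcases Nat.eq_zero_or_pos k with h0 | h0
          · rw [h0, pow_zero]; exact Nat.one_le_pow _ _ (by norm_num)
          · exact hj k h0 (by omega)
        calc 3 * c + 2 ^ k ≤ 3 * (k * 3 ^ odds n k) + 3 ^ odds n k := by omega
          _ ≤ 3 * (k * 3 ^ odds n k) + 3 * 3 ^ odds n k := by
              have : 0 < 3 ^ odds n k := by positivity
              omega
          _ = (k + 1) * 3 ^ (odds n k + 1) := by ring

lemma ge_of {n k : ℕ} (h : 2 ^ k ≤ 3 ^ odds n k) : n ≤ T^[k] n := by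
  obtain ⟨c, h1, -⟩ := affine n k
  have h2 : 2 ^ k * n ≤ 2 ^ k * T^[k] n := by
    rw [h1]
    exact (Nat.mul_le_mul_right n h).trans (Nat.le_add_right _ _)
  exact Nat.le_of_mul_le_mul_left h2 (by positivity)

/-- counterexamples have a finite coefficient stopping time, up to which all terms are `≥ n` -/
lemma counter {n : ℕ} (h : Counterexample n) :
    ∃ k, IsKappa n k ∧ ∀ j, j ≤ k → n ≤ T^[j] n := by
  obtain ⟨hn, h⟩ := h
  push Not at h
  obtain ⟨k, hk⟩ := h
  rcases hk with ⟨h1, h2⟩ | ⟨h1, h2⟩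
  · -- `κ = k`, not `σ = k`
    refine ⟨k, h1, fun j hj => ?_⟩
    have hlt : ∀ j, 1 ≤ j → j < k → n ≤ T^[j] n := fun j a b => ge_of (h1.2.2 j a b)
    rcases Nat.eq_zero_or_pos j with h0 | h0
    · rw [h0]; exact le_rfl
    · rcases Nat.lt_or_ge j k with h3 | h3
      · exact hlt j h0 h3
      · have : j = k := by omega
        subst this
        by_contra hcon
        push Not at hcon
        exact h2 ⟨h1.1, hcon, hlt⟩
  · -- `σ = k`, not `κ = k`
    classical
    have h3 : 3 ^ odds n k < 2 ^ k := by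
      by_contra hcon
      push Not at hcon
      have := ge_of hcon
      have := h2.2.1
      omega
    have h4 : ∃ j, 1 ≤ j ∧ j < k ∧ 3 ^ odds n j < 2 ^ j := by
      by_contra hcon
      push Not at hcon
      exact h1 ⟨h2.1, h3, fun j a b => hcon j a b⟩
    obtain ⟨hj1, hj2, hj3⟩ := Nat.find_spec h4
    refine ⟨Nat.find h4, ⟨hj1, hj3, fun i a b => ?_⟩, fun i hi => ?_⟩
    · by_contra hcon
      push Not at hcon
      exact Nat.find_min h4 b ⟨a, by omega, hcon⟩
    · rcases Nat.eq_zero_or_pos i with h0 | h0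
      · rw [h0]; exact le_rfl
      · exact h2.2.2 i h0 (by omega)

/-- the coefficient stopping time of a counterexample is large -/
lemma kappa_large {c : ℝ} (hc : 0 < c) : ∃ n1 : ℕ, ∀ n k : ℕ, n1 < n → IsKappa n k →
    n ≤ T^[k] n → c * Real.log n ≤ k := by
  set ε : ℝ := 1 / (2 * c) with hε
  have hε0 : 0 < ε := by positivity
  obtain ⟨n0, hgap⟩ := F.pow_gap su_thm kp_thm (p := 2) (q := 3) le_rfl (by norm_num)
    (by norm_num [Int.isCoprime_iff_gcd_eq_one]) hε0
  have hlim : ∀ᶠ k : ℕ in atTop, (k : ℝ) ≤ Real.exp (ε * k) := by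
    have h1 := (Real.tendsto_pow_mul_exp_neg_atTop_nhds_zero 1).comp
      ((tendsto_natCast_atTop_atTop (R := ℝ)).const_mul_atTop hε0)
    have h2 := h1.const_mul (1 / ε)
    rw [mul_zero] at h2
    filter_upwards [h2.eventually_lt_const (show (0 : ℝ) < 1 by norm_num)] with k hk
    simp only [Function.comp_apply, pow_one] at hk
    have h3 : 1 / ε * (ε * (k : ℝ) * Real.exp (-(ε * k))) = k * Real.exp (-(ε * k)) := by
      field_simp
    rw [h3, Real.exp_neg, ← div_eq_mul_inv, div_lt_one (Real.exp_pos _)] at hk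
    exact hk.le
  obtain ⟨n2, hn2⟩ := eventually_atTop.1 hlim
  set m := n0 + n2 with hm
  refine ⟨m * 2 ^ m + 1, fun n k hn hk hge => ?_⟩
  obtain ⟨cc, h1, h2⟩ := affine n k
  have h3 := h2 hk.2.2
  have h4 : 2 ^ k * n ≤ 3 ^ odds n k * n + k * 3 ^ odds n k := by
    calc 2 ^ k * n ≤ 2 ^ k * T^[k] n := Nat.mul_le_mul_left _ hge
      _ = 3 ^ odds n k * n + cc := h1
      _ ≤ _ := by omega
  have h5 : 3 ^ odds n k + 1 ≤ 2 ^ k := hk.2.1
  have hnR : (0 : ℝ) < n := by
    have : 0 < n := by omega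
    exact_mod_cast this
  -- the real form
  have h6 : ((2 : ℝ) ^ k - 3 ^ odds n k) * n ≤ k * 3 ^ odds n k := by
    have : ((2 ^ k * n : ℕ) : ℝ) ≤ ((3 ^ odds n k * n + k * 3 ^ odds n k : ℕ) : ℝ) := by
      exact_mod_cast h4
    push_cast at this
    linarith
  have h7 : (3 : ℝ) ^ odds n k + 1 ≤ 2 ^ k := by exact_mod_cast h5
  have h8 : (k : ℝ) * 3 ^ odds n k ≤ k * 2 ^ k := by gcongr; linarith
  rcases Nat.lt_or_ge k m with hkm | hkm
  · exfalso
    have h9 : (n : ℝ) ≤ ((m * 2 ^ m : ℕ) : ℝ) := by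
      have e1 : (n : ℝ) ≤ ((2 : ℝ) ^ k - 3 ^ odds n k) * n := by nlinarith
      have e2 : (k : ℝ) * 2 ^ k ≤ m * 2 ^ m := by
        have : (k : ℝ) ≤ m := by exact_mod_cast hkm.le
        have : (2 : ℝ) ^ k ≤ 2 ^ m := pow_le_pow_right₀ (by norm_num) hkm.le
        gcongr
      push_cast
      linarith
    have h10 : n ≤ m * 2 ^ m := by exact_mod_cast h9
    omega
  · have h9 := hgap k (odds n k) (by omega)
    rw [abs_of_pos (by push_cast; linarith)] at h9
    push_cast at h9
    have h10 : (2 : ℝ) ^ k * Real.exp (-(ε * k)) * n ≤ k * 2 ^ k := by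
      calc (2 : ℝ) ^ k * Real.exp (-(ε * k)) * n ≤ ((2 : ℝ) ^ k - 3 ^ odds n k) * n := by gcongr
        _ ≤ k * 3 ^ odds n k := h6
        _ ≤ k * 2 ^ k := h8
    have h11 : (n : ℝ) ≤ k * Real.exp (ε * k) := by
      have e1 : (0 : ℝ) < 2 ^ k := by positivity
      have e2 : Real.exp (-(ε * k)) * Real.exp (ε * k) = 1 := by
        rw [← Real.exp_add]; simp
      have e3 : Real.exp (-(ε * k)) * n ≤ k := by
        have : (2 : ℝ) ^ k * (Real.exp (-(ε * k)) * n) ≤ 2 ^ k * k := by linarith
        exact le_of_mul_le_mul_left this e1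
      calc (n : ℝ) = (Real.exp (-(ε * k)) * Real.exp (ε * k)) * n := by rw [e2, one_mul]
        _ = Real.exp (-(ε * k)) * n * Real.exp (ε * k) := by ring
        _ ≤ k * Real.exp (ε * k) := by gcongr
    have h12 : (n : ℝ) ≤ Real.exp (2 * ε * k) := by
      calc (n : ℝ) ≤ k * Real.exp (ε * k) := h11
        _ ≤ Real.exp (ε * k) * Real.exp (ε * k) := by
            gcongr
            exact hn2 k (by omega)
        _ = Real.exp (2 * ε * k) := by rw [← Real.exp_add]; ring_nf
    have h13 : Real.log n ≤ 2 * ε * k := by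
      rw [Real.log_le_iff_le_exp hnR]
      exact h12
    calc c * Real.log n ≤ c * (2 * ε * k) := by gcongr
      _ = k := by rw [hε]; field_simp

/-- the map on the integers -/
def G (y : ℤ) : ℤ := if y % 2 = 0 then y / 2 else (3 * y + 1) / 2

lemma G_iter (n k : ℕ) : ((T^[k] n : ℕ) : ℤ) = G^[k] (n : ℤ) := by
  induction k with
  | zero => rfl
  | succ k ih =>
    rw [Function.iterate_succ_apply', Function.iterate_succ_apply', ← ih]
    rcases Nat.mod_two_eq_zero_or_one (T^[k] n) with h | h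
    · rw [T, if_pos h, G, if_pos (by omega)]
      push_cast
      rfl
    · rw [T, if_neg (by omega), G, if_neg (by omega)]
      push_cast
      rfl

/-- the parities, for natural numbers and for integers -/
lemma wc_le (n H N : ℕ) : F.wc (F.wd G.Col.f G.Col.G (n : ℤ)) H N ≤ blocksUpTo n H N := by
  have hGG : G.Col.G = G := rfl
  unfold F.wc blocksUpTo
  have e : (fun i : ℕ => fac (F.wd G.Col.f G.Col.G (n : ℤ)) N i) =
      (fun v : Fin N → ℕ => fun j => ((v j : ℕ) : ZMod 2)) ∘
        (fun i : ℕ => fun j : Fin N => T^[i + j] n % 2) := by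
    funext i j
    simp only [Function.comp_apply, fac, F.wd, G.Col.f]
    rw [hGG, ← G_iter, ZMod.natCast_mod, Int.cast_natCast]
  rw [e, Set.image_comp]
  apply Set.ncard_image_le
  apply Set.Finite.subset
    (Set.finite_univ.image (fun v : Fin N → Fin 2 => fun j => ((v j : Fin 2) : ℕ)))
  rintro _ ⟨i, _, rfl⟩
  exact ⟨fun j => ⟨T^[i + j] n % 2, Nat.mod_lt _ (by norm_num)⟩, trivial, rfl⟩

lemma blocksUpTo_mono (n : ℕ) {H H' : ℕ} (h : H ≤ H') (N : ℕ) :
    blocksUpTo n H N ≤ blocksUpTo n H' N := by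
  apply Set.ncard_le_ncard
  · exact Set.image_mono fun i hi => le_trans hi h
  · apply Set.Finite.subset
      (Set.finite_univ.image (fun v : Fin N → Fin 2 => fun j => ((v j : Fin 2) : ℕ)))
    rintro _ ⟨i, _, rfl⟩
    exact ⟨fun j => ⟨T^[i + j] n % 2, Nat.mod_lt _ (by norm_num)⟩, trivial, rfl⟩

/-- **Result.** Let `A` be a real number.

(1) There is `κ₀ > 0` such that for every `δ > 0` there is `K` with the following property: if
`n > K` and the coefficient stopping time and the stopping time of `n` are different, then for every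
integer `N` with `δ log n ≤ N ≤ κ₀ log n` more than `A N` different blocks of `N` consecutive
parities occur among the first `K N` terms of the trajectory of `n`.

(2) There are only finitely many `n` whose coefficient stopping time and stopping time are
different, and for which at most `A N` different blocks of `N` consecutive parities occur in the
trajectory of `n`, for every `N ≥ 1`. -/
theorem result (A : ℝ) :
    (∃ κ₀ : ℝ, 0 < κ₀ ∧ ∀ δ : ℝ, 0 < δ → ∃ K : ℕ, ∀ n : ℕ, Counterexample n → K < n →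
      ∀ N : ℕ, δ * Real.log n ≤ N → N ≤ κ₀ * Real.log n → A * N < blocksUpTo n (K * N) N) ∧
    {n : ℕ | Counterexample n ∧ ∀ h N : ℕ, 1 ≤ N → (blocksUpTo n h N : ℝ) ≤ A * N}.Finite := by
  obtain ⟨κ, hκ, hst⟩ := G.stay_fin G.Col.T A
  have h1 : ∀ δ : ℝ, 0 < δ → ∃ K : ℕ, ∀ n : ℕ, Counterexample n → K < n →
      ∀ N : ℕ, δ * Real.log n ≤ N → N ≤ κ * Real.log n → A * N < blocksUpTo n (K * N) N := by
    intro δ hδ
    obtain ⟨K0, K, hK01, hK⟩ := hst δ hδ
    have hK0 : (1 : ℝ) ≤ K0 := by exact_mod_cast hK01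
    obtain ⟨n1, hn1⟩ := kappa_large (c := K0 * κ) (by positivity)
    refine ⟨K0 + K + n1, fun n hn hKn N hN1 hN2 => ?_⟩
    obtain ⟨k, hk1, hk2⟩ := counter hn
    have h2 := hn1 n k (by omega) hk1 (hk2 k le_rfl)
    have hKN : K0 * N ≤ k := by
      have : ((K0 * N : ℕ) : ℝ) ≤ k := by
        push_cast
        calc (K0 : ℝ) * N ≤ K0 * (κ * Real.log n) := by gcongr
          _ = K0 * κ * Real.log n := by ring
          _ ≤ k := h2
      exact_mod_cast this
    have habs : |(((n : ℕ) : ℤ) : ℝ)| = n := by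
      rw [Int.cast_natCast, abs_of_nonneg (by positivity)]
    have h3 := hK G.Col.f G.Col.G G.Col.mp (n : ℤ) (by
        rw [abs_of_nonneg (by positivity)]
        exact_mod_cast (by omega : K < n)) N (by rw [habs]; exact hN1) (by rw [habs]; exact hN2)
      (fun t ht => by
        have hGG : G.Col.G = G := rfl
        rw [hGG, ← G_iter, abs_of_nonneg (by positivity), abs_of_nonneg (by positivity)]
        exact_mod_cast hk2 t (by omega))
    refine lt_of_lt_of_le h3 ?_
    have h4 : K0 * N ≤ (K0 + K + n1) * N := Nat.mul_le_mul_right N (by omega)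
    exact_mod_cast (wc_le n (K0 * N) N).trans (blocksUpTo_mono n h4 N)
  refine ⟨⟨κ, hκ, h1⟩, ?_⟩
  obtain ⟨K, hK⟩ := h1 (κ / 2) (by positivity)
  obtain ⟨K1, hK1⟩ := exists_nat_ge (Real.exp (2 / κ))
  refine (Set.finite_Iic (K + K1)).subset ?_
  rintro n ⟨hn, hw⟩
  by_contra hcon
  simp only [Set.mem_Iic, not_le] at hcon
  have hn0R : (0 : ℝ) < n := by
    have : 0 < n := by omega
    exact_mod_cast this
  have hlog : 2 / κ ≤ Real.log n := by
    rw [Real.le_log_iff_exp_le hn0R]
    refine hK1.trans ?_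
    exact_mod_cast (by omega : K1 ≤ n)
  have hlog2 : 2 ≤ κ * Real.log n := by
    rw [div_le_iff₀ hκ] at hlog
    linarith
  set N : ℕ := ⌊κ * Real.log n⌋₊ with hN
  have hN1 : (N : ℝ) ≤ κ * Real.log n := Nat.floor_le (by linarith)
  have hN2 : κ * Real.log n < N + 1 := Nat.lt_floor_add_one _
  have hN3 : 1 ≤ N := by
    have : (0 : ℝ) < N := by linarith
    exact_mod_cast this
  have h2 := hK n hn (by omega) N (by
    have : (1 : ℝ) ≤ N := by exact_mod_cast hN3
    linarith) hN1
  exact absurd (hw _ N hN3) (not_le.2 h2)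

end Pool.Agent.Results.MP_a11cf9_nt.CounterexamplesSuperlinear
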