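import Pool.Agent.Results.MP_2d22f3_nt.StoppingTimeSharp

set_option autoImplicit false

/-! Terras' coefficient stopping time conjecture: the number of the exceptions. -/

namespace Pool.Agent.Results.MP_a11cf9_nt.ExceptionsBelowEntropy

open Finset

/-- the `3x+1` map -/
def T (n : ℕ) : ℕ := if n % 2 = 0 then n / 2 else (3 * n + 1) / 2

/-- the number of the odd ones among the first `k` terms of the trajectory of `n` -/
def a (k n : ℕ) : ℕ := ((range k).filter (fun i => T^[i] n % 2 = 1)).card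

/-- `k` is the coefficient stopping time of `n` -/
def IsKappa (n k : ℕ) : Prop := 1 ≤ k ∧ 3 ^ a k n < 2 ^ k ∧ ∀ j, 1 ≤ j → j < k → 2 ^ j ≤ 3 ^ a j n

/-- `k` is the stopping time of `n` -/
def IsSigma (n k : ℕ) : Prop := 1 ≤ k ∧ T^[k] n < n ∧ ∀ j, 1 ≤ j → j < k → n ≤ T^[j] n

/-- the stopping time of `n` and its coefficient stopping time (both possibly infinite) are different -/
def Exception (n : ℕ) : Prop := ¬ ∀ k, IsKappa n k ↔ IsSigma n k

/-- the binary entropy of `log_3 2`, in bits: `0.94995...` -/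
noncomputable def H : ℝ := Real.binEntropy (Real.log 2 / Real.log 3) / Real.log 2

lemma a_zero (n : ℕ) : a 0 n = 0 := by simp [a]

lemma a_succ (k n : ℕ) : a (k + 1) n = a k n + (if T^[k] n % 2 = 1 then 1 else 0) := by
  unfold a
  rw [range_add_one, filter_insert]
  split_ifs with h
  · rw [card_insert_of_notMem (by simp)]
  · rfl

lemma a_le (k n : ℕ) : a k n ≤ k := by
  unfold a
  exact (card_filter_le _ _).trans (by rw [card_range])

/-- the additive part -/
def cc (n : ℕ) : ℕ → ℕ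
  | 0 => 0
  | k + 1 => if T^[k] n % 2 = 1 then 3 * cc n k + 2 ^ k else cc n k

lemma iter_eq (n k : ℕ) : 2 ^ k * T^[k] n = 3 ^ a k n * n + cc n k := by
  induction k with
  | zero => simp [a_zero, cc]
  | succ k ih =>
    rw [a_succ, Function.iterate_succ_apply', cc]
    set m := T^[k] n with hm
    by_cases h : m % 2 = 1
    · rw [if_pos h, if_pos h]
      have hT : 2 * T m = 3 * m + 1 := by
        unfold T
        rw [if_neg (by omega)]
        omega
      calc 2 ^ (k + 1) * T m = 2 ^ k * (2 * T m) := by ring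
        _ = 3 * (2 ^ k * m) + 2 ^ k := by rw [hT]; ring
        _ = _ := by rw [ih]; ring
    · rw [if_neg h, if_neg h]
      have hT : 2 * T m = m := by
        unfold T
        rw [if_pos (by omega)]
        omega
      calc 2 ^ (k + 1) * T m = 2 ^ k * (2 * T m) := by ring
        _ = _ := by rw [hT, ih]; ring

lemma cc_le {n k : ℕ} (h : ∀ j, 1 ≤ j → j < k → 2 ^ j ≤ 3 ^ a j n) : 3 * cc n k ≤ a k n * 3 ^ a k n := by
  induction k with
  | zero => simp [cc]
  | succ k ih =>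
    have ih' := ih (fun j h1 h2 => h j h1 (by omega))
    rw [a_succ, cc]
    split_ifs with h1
    · have h2 : 2 ^ k ≤ 3 ^ a k n := by
        rcases Nat.eq_zero_or_pos k with h0 | h0
        · subst h0; simpa using Nat.one_le_pow _ 3 (by norm_num)
        · exact h k h0 (by omega)
      calc 3 * (3 * cc n k + 2 ^ k) = 3 * (3 * cc n k) + 3 * 2 ^ k := by ring
        _ ≤ 3 * (a k n * 3 ^ a k n) + 3 * 3 ^ a k n := by gcongr
        _ = _ := by ring
    · simpa using ih'

lemma coeff_lt {n k : ℕ} (h : T^[k] n < n) : 3 ^ a k n < 2 ^ k := by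
  by_contra hcon
  rw [not_lt] at hcon
  have h1 := iter_eq n k
  have h2 : 2 ^ k * n ≤ 3 ^ a k n * n := Nat.mul_le_mul_right _ hcon
  have h3 : 2 ^ k * T^[k] n < 2 ^ k * n := Nat.mul_lt_mul_of_pos_left h (by positivity)
  omega

lemma of_exception {n : ℕ} (h : Exception n) : ∃ k, IsKappa n k ∧ ∀ j, 1 ≤ j → j ≤ k → n ≤ T^[j] n := by
  classical
  unfold Exception at h
  push Not at h
  obtain ⟨k, hk⟩ := h
  rcases hk with ⟨hk, hs⟩ | ⟨hk, hs⟩
  · refine ⟨k, hk, ?_⟩
    by_contra hcon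
    push Not at hcon
    have hex : ∃ j, 1 ≤ j ∧ T^[j] n < n := by
      obtain ⟨j, h1, _, h3⟩ := hcon
      exact ⟨j, h1, h3⟩
    obtain ⟨j0, g1, g2, g3⟩ := hcon
    set j := Nat.find hex with hj
    obtain ⟨h1, h2⟩ := Nat.find_spec hex
    rw [← hj] at h1 h2
    have hjk : j ≤ k := (Nat.find_min' hex ⟨g1, g3⟩).trans g2
    have hmin : ∀ i, 1 ≤ i → i < j → n ≤ T^[i] n := by
      intro i h3 h4
      have := Nat.find_min hex h4
      by_contra h5
      rw [not_le] at h5
      exact this ⟨h3, h5⟩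
    have h5 := coeff_lt h2
    rcases Nat.lt_or_ge j k with h6 | h6
    · have := hk.2.2 j h1 h6
      omega
    · have : j = k := by omega
      rw [this] at h1 h2 hmin
      exact hs ⟨h1, h2, hmin⟩
  · have hlt := coeff_lt hs.2.1
    have hex : ∃ j, 1 ≤ j ∧ 3 ^ a j n < 2 ^ j := ⟨k, hs.1, hlt⟩
    set j := Nat.find hex with hj
    obtain ⟨h1, h2⟩ := Nat.find_spec hex
    rw [← hj] at h1 h2
    have hjk : j ≤ k := Nat.find_min' hex ⟨hs.1, hlt⟩
    have hmin : ∀ i, 1 ≤ i → i < j → 2 ^ i ≤ 3 ^ a i n := by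
      intro i h3 h4
      have := Nat.find_min hex h4
      by_contra h5
      rw [not_le] at h5
      exact this ⟨h3, h5⟩
    have hK : IsKappa n j := ⟨h1, h2, hmin⟩
    refine ⟨j, hK, ?_⟩
    rcases Nat.lt_or_ge j k with h6 | h6
    · intro i h3 h4
      exact hs.2.2 i h3 (by omega)
    · have : j = k := by omega
      rw [this] at hK
      exact absurd hK hk

/-- the exceptions with a short coefficient stopping time are bounded -/
lemma exists_n0 : ∃ n₀ : ℕ, ∀ n : ℕ, n₀ ≤ n → ∀ k : ℕ, IsKappa n k → n ≤ T^[k] n → 2 * Real.log n < k := by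
  have : Fact (Nat.Prime 2) := ⟨by norm_num⟩
  have : Fact (Nat.Prime 3) := ⟨by norm_num⟩
  obtain ⟨N0, hN0⟩ := Pool.Agent.TH930.HW.ridout (p := 2) (q := 3) (by norm_num) (δ := 1 / 2) (by norm_num)
  set K0 : ℕ := 40 + 2 * N0 with hK0
  refine ⟨K0 * 2 ^ K0 + 1, ?_⟩
  intro n hn k hk hT
  by_contra hcon
  rw [not_lt] at hcon
  have hn1 : 1 ≤ n := by omega
  have hnR : (1 : ℝ) ≤ n := by exact_mod_cast hn1
  have hn0 : (0 : ℝ) < n := by linarith
  have hc := cc_le hk.2.2
  have he := iter_eq n k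
  have h1 : 2 ^ k * n ≤ 3 ^ a k n * n + cc n k := by
    rw [← he]; exact Nat.mul_le_mul_left _ hT
  have hak := a_le k n
  set A := a k n with hA
  have hk3 : 3 ^ A < 2 ^ k := hk.2.1
  obtain ⟨D, hD, hD0⟩ : ∃ D, 2 ^ k = 3 ^ A + D ∧ 0 < D :=
    ⟨2 ^ k - 3 ^ A, by omega, by omega⟩
  have h2 : 3 * (D * n) ≤ k * 3 ^ A := by
    have h3 : (3 ^ A + D) * n ≤ 3 ^ A * n + cc n k := by rw [← hD]; exact h1
    have h4 : D * n ≤ cc n k := by
      rw [add_mul] at h3; omega
    calc 3 * (D * n) ≤ 3 * cc n k := by omega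
      _ ≤ A * 3 ^ A := hc
      _ ≤ k * 3 ^ A := Nat.mul_le_mul_right _ hak
  rcases Nat.lt_or_ge k K0 with hkK | hkK
  · have h3 : n ≤ D * n := Nat.le_mul_of_pos_left _ hD0
    have h4 : k * 3 ^ A ≤ K0 * 2 ^ K0 := by
      apply Nat.mul_le_mul hkK.le
      exact hk.2.1.le.trans (Nat.pow_le_pow_right (by norm_num) hkK.le)
    omega
  · -- the theorem of Ridout
    set N : ℕ := (k + 1) / 2 with hN
    have hN1 : N0 ≤ N := by omega
    have hN2 : (1 / 2 : ℝ) * k ≤ N := by
      have : k ≤ 2 * N := by omega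
      have : (k : ℝ) ≤ 2 * N := by exact_mod_cast this
      linarith
    have hN3 : 2 * (N : ℝ) ≤ k + 1 := by
      have : 2 * N ≤ k + 1 := by omega
      exact_mod_cast this
    have hkR : (40 : ℝ) ≤ k := by
      have : 40 ≤ k := by omega
      exact_mod_cast this
    have hAk : (A : ℝ) ≤ k := by exact_mod_cast hak
    have h2R : 3 * ((D : ℝ) * n) ≤ k * 3 ^ A := by exact_mod_cast h2
    have hnk : Real.exp ((k : ℝ) / 2) ≤ n := by
      rw [← Real.le_log_iff_exp_le hn0]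
      linarith
    have hDle : (D : ℝ) ≤ 3 ^ A * Real.exp (-(1 / 2 * N)) := by
      have h3 : (k : ℝ) ≤ 3 * Real.exp ((k - 1) / 4) := by
        have h4 := Real.quadratic_le_exp_of_nonneg (x := ((k : ℝ) - 1) / 4) (by linarith)
        nlinarith
      have h5 : (D : ℝ) * Real.exp ((k : ℝ) / 2) ≤ 3 ^ A * Real.exp ((k - 1) / 4) := by
        have h6 : (D : ℝ) * Real.exp ((k : ℝ) / 2) ≤ D * n :=
          mul_le_mul_of_nonneg_left hnk (Nat.cast_nonneg _)
        have h7 : (k : ℝ) * 3 ^ A ≤ 3 * Real.exp ((k - 1) / 4) * 3 ^ A :=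
          mul_le_mul_of_nonneg_right h3 (by positivity)
        linarith
      have h8 : (D : ℝ) = (D * Real.exp ((k : ℝ) / 2)) * Real.exp (-((k : ℝ) / 2)) := by
        rw [mul_assoc, ← Real.exp_add]; simp
      rw [h8]
      calc (D * Real.exp ((k : ℝ) / 2)) * Real.exp (-((k : ℝ) / 2))
          ≤ (3 ^ A * Real.exp ((k - 1) / 4)) * Real.exp (-((k : ℝ) / 2)) :=
            mul_le_mul_of_nonneg_right h5 (Real.exp_pos _).le
        _ = 3 ^ A * Real.exp ((k - 1) / 4 - k / 2) := by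
            rw [mul_assoc, ← Real.exp_add]; congr 2
        _ ≤ _ := by
            apply mul_le_mul_of_nonneg_left _ (by positivity)
            apply Real.exp_le_exp.2
            linarith
    have hDz : (((3 : ℤ) ^ A - 2 ^ k : ℤ) : ℝ) = -(D : ℝ) := by
      have : ((2 : ℝ)) ^ k = 3 ^ A + D := by exact_mod_cast hD
      push_cast
      linarith
    have habs : |(((3 : ℤ) ^ A - 2 ^ k : ℤ) : ℝ)| = D := by
      rw [hDz, abs_neg, abs_of_nonneg (Nat.cast_nonneg _)]
    have hDR : (0 : ℝ) < D := by exact_mod_cast hD0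
    apply hN0 N hN1 k A hN2 (by linarith) (2 ^ k) (3 ^ A - 2 ^ k) (by positivity)
    · intro h
      have h' := hDz
      rw [h, Int.cast_zero] at h'
      linarith
    · simp
    · have : (2 : ℤ) ^ k + (3 ^ A - 2 ^ k) = 3 ^ A := by ring
      rw [this]
      simp
    · rw [habs]
      push_cast
      rw [abs_of_pos (by positivity), mul_assoc]
      exact mul_le_mul_of_nonneg_left hDle (by positivity)
    · rw [habs]
      refine hDle.trans ?_
      apply mul_le_mul_of_nonneg_right _ (Real.exp_pos _).le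
      have : ((3 ^ A : ℕ) : ℝ) ≤ ((2 ^ k : ℕ) : ℝ) := by exact_mod_cast hk.2.1.le
      push_cast at this ⊢
      exact this

/-- There is `C` such that for every `X ≥ 1` every interval `(u, u + X]` contains at most
`C X ^ (H - 4.8e-8)` integers `n ≥ 2` whose stopping time is different from the coefficient stopping
time. -/
theorem result : ∃ C : ℝ, 0 < C ∧ ∀ X : ℝ, 1 ≤ X → ∀ u : ℕ,
    ({n : ℕ | 2 ≤ n ∧ u < n ∧ (n : ℝ) ≤ u + X ∧ Exception n}.ncard : ℝ) ≤ C * X ^ (H - 48 / 1000000000) := by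
  classical
  obtain ⟨n₀, hn₀⟩ := exists_n0
  obtain ⟨μ, C, hμ, hC, h⟩ := Pool.Agent.Results.MP_2d22f3_nt.StoppingTimeSharp.result (1 / 1000000)
    (by norm_num) (by norm_num)
  have hH1 : 12 / 13 < H := Pool.Agent.Results.MP_2d22f3_nt.StoppingTimeSharp.H_gt
  have hH2 : H < 0.951 := Pool.Agent.Results.MP_2d22f3_nt.StoppingTimeSharp.H_lt
  have hl2 := Real.log_two_lt_d9
  have hl2' := Real.log_two_gt_d9
  have hl0 : 0 < Real.log 2 := by linarith
  set η : ℝ := H - 48 / 1000000000 with hη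
  refine ⟨n₀ + 2 + C, by positivity, ?_⟩
  intro X hX u
  have hX0 : 0 < X := by linarith
  have hlX : 0 ≤ Real.log X := Real.log_nonneg hX
  have hXη : 1 ≤ X ^ η := Real.one_le_rpow hX (by rw [hη]; linarith)
  have hexp : X ^ (1 - (1 + 1 / 1000000) * (1 - H) + Real.exp (-(1 / (10000 * (1 / 1000000))))) ≤ X ^ η := by
    apply Real.rpow_le_rpow_of_exponent_le hX
    have h1 : Real.exp (-(1 / (10000 * (1 / 1000000)))) ≤ 1 / 1000000000 := by
      have e : (-(1 / (10000 * (1 / 1000000))) : ℝ) = -100 := by norm_num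
      rw [e, Real.exp_neg, inv_eq_one_div, div_le_div_iff₀ (Real.exp_pos _) (by norm_num)]
      have h2 : (2 : ℝ) ^ 100 ≤ Real.exp 100 := by
        have h3 : (2 : ℝ) ≤ Real.exp 1 := by
          have := Real.add_one_le_exp (1 : ℝ); linarith
        calc (2 : ℝ) ^ 100 ≤ Real.exp 1 ^ 100 := pow_le_pow_left₀ (by norm_num) h3 100
          _ = Real.exp 100 := by rw [← Real.exp_nat_mul]; norm_num
      linarith [show (1000000000 : ℝ) ≤ 2 ^ 100 by norm_num]
    rw [hη]
    linarith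
  set S : Set ℕ := {n : ℕ | 2 ≤ n ∧ u < n ∧ (n : ℝ) ≤ u + X ∧ Exception n} with hS
  set S1 : Set ℕ := {n : ℕ | u < n ∧ (n : ℝ) ≤ u + X ∧ ∀ j : ℕ,
    (j : ℝ) ≤ (1 + 1 / 1000000) * Real.logb 2 X → n ≤ Pool.Agent.Results.MP_2d22f3_nt.StoppingTimeSharp.S^[j] n} with hS1
  set S2 : Set ℕ := Set.Iic n₀ with hS2
  set S3 : Set ℕ := {n : ℕ | 1 ≤ n ∧ (n : ℝ) ≤ X ^ (9 / 10 : ℝ)} with hS3
  have hS1fin : S1.Finite := by
    apply (Set.finite_Iic (u + ⌊X⌋₊)).subset
    rintro n ⟨-, h2, -⟩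
    rw [Set.mem_Iic]
    have h3 : ((n - u : ℕ) : ℝ) ≤ X := by
      rcases Nat.lt_or_ge u n with h4 | h4
      · rw [Nat.cast_sub h4.le]; linarith
      · rw [Nat.sub_eq_zero_of_le h4, Nat.cast_zero]; exact hX0.le
    have := Nat.le_floor h3
    omega
  have hX9 : 0 ≤ X ^ (9 / 10 : ℝ) := Real.rpow_nonneg hX0.le _
  have hS3sub : S3 ⊆ ((Finset.Icc 1 ⌊X ^ (9 / 10 : ℝ)⌋₊ : Finset ℕ) : Set ℕ) := by
    rintro n ⟨h1, h2⟩
    rw [Finset.coe_Icc, Set.mem_Icc]
    exact ⟨h1, Nat.le_floor h2⟩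
  have hS3fin : S3.Finite := (Finset.finite_toSet _).subset hS3sub
  have hS3c : (S3.ncard : ℝ) ≤ X ^ η := by
    have h1 := Set.ncard_le_ncard hS3sub (Finset.finite_toSet _)
    rw [Set.ncard_coe_finset, Nat.card_Icc, Nat.add_sub_cancel] at h1
    calc (S3.ncard : ℝ) ≤ ⌊X ^ (9 / 10 : ℝ)⌋₊ := by exact_mod_cast h1
      _ ≤ X ^ (9 / 10 : ℝ) := Nat.floor_le hX9
      _ ≤ X ^ η := Real.rpow_le_rpow_of_exponent_le hX (by rw [hη]; linarith)
  have hsub : S ⊆ (S1 ∪ S2) ∪ S3 := by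
    rintro n ⟨hn2, hnu, hnX, hE⟩
    by_cases h2 : n ≤ n₀
    · exact Or.inl (Or.inr h2)
    by_cases h3 : (n : ℝ) ≤ X ^ (9 / 10 : ℝ)
    · exact Or.inr ⟨by omega, h3⟩
    refine Or.inl (Or.inl ⟨hnu, hnX, ?_⟩)
    rw [not_le] at h2 h3
    obtain ⟨k, hk, hT⟩ := of_exception hE
    have h4 := hn₀ n h2.le k hk (hT k hk.1 le_rfl)
    intro j hj
    rcases Nat.eq_zero_or_pos j with h0 | h0
    · subst h0; simp
    · apply hT j h0
      have h5 : (j : ℝ) ≤ k := by
        refine hj.trans (le_trans ?_ h4.le)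
        have h6 : 9 / 10 * Real.log X ≤ Real.log n := by
          have := Real.log_le_log (by positivity) h3.le
          rwa [Real.log_rpow hX0] at this
        have h7 : Real.logb 2 X = Real.log X / Real.log 2 := rfl
        rw [h7, ← mul_div_assoc, div_le_iff₀ hl0]
        have h8 : (1 + 1 / 1000000) * Real.log X ≤ 2 * (9 / 10 * Real.log X) * Real.log 2 := by
          have : 0 ≤ Real.log X * (Real.log 2 - 69 / 100) := mul_nonneg hlX (by linarith)
          nlinarith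
        refine h8.trans ?_
        apply mul_le_mul_of_nonneg_right _ hl0.le
        linarith
      exact_mod_cast h5
  have hfin : ((S1 ∪ S2) ∪ S3).Finite := (hS1fin.union (Set.finite_Iic n₀)).union hS3fin
  have h1 := Set.ncard_le_ncard hsub hfin
  have h2 := (Set.ncard_union_le (S1 ∪ S2) S3).trans (Nat.add_le_add_right (Set.ncard_union_le S1 S2) _)
  have h3 : (S.ncard : ℝ) ≤ S1.ncard + S2.ncard + S3.ncard := by exact_mod_cast h1.trans h2
  have h4 : (S2.ncard : ℝ) ≤ n₀ + 1 := by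
    have : S2 = ((Finset.Iic n₀ : Finset ℕ) : Set ℕ) := by rw [Finset.coe_Iic]
    rw [this, Set.ncard_coe_finset, Nat.card_Iic]
    push_cast; exact le_rfl
  have h5 : (S1.ncard : ℝ) ≤ C * X ^ η := ((h X hX u).2).trans (mul_le_mul_of_nonneg_left hexp hC.le)
  have h6 : (n₀ : ℝ) + 1 ≤ (n₀ + 1) * X ^ η := by
    have : (0 : ℝ) ≤ n₀ + 1 := by positivity
    nlinarith
  have h7 : (S.ncard : ℝ) ≤ C * X ^ η + (n₀ + 1) * X ^ η + X ^ η := by linarith
  calc (S.ncard : ℝ) ≤ C * X ^ η + (n₀ + 1) * X ^ η + X ^ η := h7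
    _ = (n₀ + 2 + C) * X ^ η := by ring

end Pool.Agent.Results.MP_a11cf9_nt.ExceptionsBelowEntropy
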